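import Pool.Agent.Results.MP_4ab349_nt.RandomReals
import Pool.Agent.H106AP.Fam

/-!
# `T(a, b, c)` is very negative for ALL the abc-triples with a member given by the continued fraction of a random real number

Let `A ≥ 1`, `0 ≤ η < 7 / 9`, `f(0) = 15 / 28`.  For all irrational `α` outside a set of Hausdorff dimension at most
`(1 + A f(η)) / 2` and all integers `(u, v) ≠ (0, 0)`: for every `K`, for all but finitely many convergents `p / q` of
the continued fraction of `α`, EVERY abc-triple with a member `m = |u p + v q|` and `c ≤ m ^ A` satisfies
`T(a, b, c) < - η √(log c) - K / √(log c)`, that is `rad(abc) > e ^ K c ^ (1 + η)`.  The same for the values of integer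
polynomials at the good simultaneous approximations of the points of `ℝ ^ d`.
-/

set_option autoImplicit false

namespace Pool.Agent.Results.MP_4ab349_nt.GoodApproximations

open Finset MeasureTheory Filter
open Pool.Agent.H106AP RandomReals

/-- For `A ≥ 1`, `0 ≤ η < 7 / 9`: the numbers `m` given by the good rational approximations of real points, in the
sense of `Approximations (A f(η))`, are `Good A η K` for every `K`. -/
theorem result (A η : ℝ) (hA : 1 ≤ A) (hη : 0 ≤ η) (hη1 : η < 7 / 9) :
    Approximations (A * f η) (fun (K : ℕ) (m : ℕ) => Good A η K m) := by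
  classical
  refine approximations_of (mul_nonneg (by linarith) (f_pos hη).le) fun K => ?_
  have hps : Pool.Agent.Q21.DW.PS (A * f η)
      (fun m => m ∈ Pool.Agent.Y854.AB.Bad (Real.exp K) (1 + η) A) := by
    intro t ht
    obtain ⟨C, hC⟩ := Pool.Agent.Y854.AB.count (Real.exp K) (1 + η) A (by linarith) (by linarith)
      (t - A * f η) (by linarith)
    refine ⟨C, fun N hN => ?_⟩
    have h1 := hC N hN
    rw [Fx_eq η hη hη1, show A * f η + (t - A * f η) = t by ring] at h1
    refine le_trans (Nat.cast_le.2 (Finset.card_le_card ?_)) h1
    intro m hm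
    rw [mem_filter, mem_Icc] at hm
    rw [mem_filter, mem_Ioc]
    exact ⟨⟨by omega, hm.1.2⟩, hm.2⟩
  exact hps.mono le_rfl fun n hn => by_contra fun h => hn (good_of A η K n h)

end Pool.Agent.Results.MP_4ab349_nt.GoodApproximations
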