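import Mathlib
import Pool.Agent.Q239.H.TBound

/-!
# The quantity `T` on all abc triples and on certain triples of powers

For an abc triple `a + b = c` let `T = log (c / rad (abc)) / √(log c)`; Q1 asks whether `T < 1` for all
large triples. We compare `T` on all triples with `T` on special triples.

(1) Exact powers. If `T < τ` for all large triples that consist of two cubes and a square, then
`T < √12 τ + η` for all large abc triples, for every `η > 0`. The same holds with `√(2 k)` for the
triples that consist of two squares and a `k`-th power, and with `√k` for the triples which contain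
two `k`-th powers. So `limsup T ≤ √D * limsup_P T` for these classes `P`; if Q1 holds for one of these
classes then `rad (abc) > c ^ (1 - (√D + η) / √(log c))` for all large triples, and if
`limsup T > √D` then Q1 fails already in the class `P`.

(2) Almost powers. `T` is bounded on all triples if and only if it is bounded on the triples which
are of the form `u x ^ p, v y ^ q, w z ^ r` in some order with `u, v, w ≤ c ^ δ`, for
`(p, q, r) = (3,3,3), (2,4,4), (2,3,6)` and every `δ > 0`.

Proof. There are maps of degree `D` from the line `a + b = c` to itself, unramified outside of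
`abc = 0`, which map all triples to triples of the class `P`. The size `c` becomes `c ^ D`, and by the
Riemann-Hurwitz formula the radical is multiplied by at most a constant times `c ^ (D - 1)`, so
`c / rad (abc)` does not decrease by more than a constant factor, while `√(log c)` is multiplied by
`√D`.
-/

namespace Pool.Agent.Results.MP_4ab349_nt.PowersDecideBoundedness

/-- the radical: the product of the distinct primes dividing `m` -/
def rad (m : ℕ) : ℕ := ∏ p ∈ m.primeFactors, p

/-- `T = log (c / rad (abc)) / √(log c)` -/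
noncomputable def T (a b c : ℕ) : ℝ := Real.log (c / rad (a * b * c)) / √(Real.log c)

/-- `T < τ` for all abc triples of the class `P` with `c > C₀`, for some `C₀` -/
def EventuallyBelow (P : ℕ → ℕ → ℕ → Prop) (τ : ℝ) : Prop :=
  ∃ C₀ : ℝ, ∀ a b c : ℕ, 0 < a → 0 < b → Nat.Coprime a b → a + b = c → P a b c → C₀ < c →
    T a b c < τ

/-- all triples -/
def All (_ _ _ : ℕ) : Prop := True

/-- In some order, the terms are perfect powers with the exponents `p`, `q`, `r`. -/
def Powers (p q r : ℕ) (a b c : ℕ) : Prop :=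
  ∃ x y z : ℕ, [a, b, c].Perm [x ^ p, y ^ q, z ^ r]

/-- In some order, the terms are `u x ^ p`, `v y ^ q`, `w z ^ r` with `u, v, w ≤ c ^ δ`. -/
def AlmostPower (p q r : ℕ) (δ : ℝ) (a b c : ℕ) : Prop :=
  ∃ u v w x y z : ℕ, [a, b, c].Perm [u * x ^ p, v * y ^ q, w * z ^ r] ∧
    (u : ℝ) ≤ (c : ℝ) ^ δ ∧ (v : ℝ) ≤ (c : ℝ) ^ δ ∧ (w : ℝ) ≤ (c : ℝ) ^ δ

/-- (1) For the exponents `(2,3,3)` with `D = 12`, `(2,2,k)` with `D = 2 k`, `(1,k,k)` with `D = k`:
if `T < τ` for all large triples which consist of powers with these exponents, then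
`T < √D * τ + η` for all large triples. (2) For the exponents `(3,3,3)`, `(2,4,4)`, `(2,3,6)` and
`δ > 0`, `T` is eventually bounded on the triples of almost powers if and only if it is eventually
bounded on all triples. -/
theorem result :
    (∀ p q r D : ℕ, ((p, q, r, D) = (2, 3, 3, 12) ∨ (∃ k : ℕ, 1 ≤ k ∧ (p, q, r, D) = (2, 2, k, 2 * k)) ∨
      ∃ k : ℕ, 1 ≤ k ∧ (p, q, r, D) = (1, k, k, k)) → ∀ τ η : ℝ, 0 ≤ τ → 0 < η →
      EventuallyBelow (Powers p q r) τ → EventuallyBelow All (√D * τ + η)) ∧
    (∀ p q r : ℕ, ((p, q, r) = (3, 3, 3) ∨ (p, q, r) = (2, 4, 4) ∨ (p, q, r) = (2, 3, 6)) →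
      ∀ δ : ℝ, 0 < δ →
      ((∃ τ, EventuallyBelow (AlmostPower p q r δ) τ) ↔ ∃ τ, EventuallyBelow All τ)) := by
  constructor
  · intro p q r D hs τ η hτ hη h
    rcases hs with hs | ⟨k, hk, hs⟩ | ⟨k, hk, hs⟩ <;> simp only [Prod.mk.injEq] at hs <;>
      obtain ⟨rfl, rfl, rfl, rfl⟩ := hs
    · exact Pool.Agent.Q239.ABC.trans_two_three_three.T hτ hη h
    · exact (Pool.Agent.Q239.ABC.trans_two_two_k _ hk).T hτ hη h
    · exact (Pool.Agent.Q239.ABC.trans_one_k_k _ hk).T hτ hη h
  · intro p q r hs δ hδ
    constructor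
    · rintro ⟨τ, C₀, h⟩
      have h' : EventuallyBelow (AlmostPower p q r δ) |τ| :=
        ⟨C₀, fun a b c ha hb hab hc hP hC => (h a b c ha hb hab hc hP hC).trans_le (le_abs_self τ)⟩
      rcases hs with hs | hs | hs <;> simp only [Prod.mk.injEq] at hs <;>
        obtain ⟨rfl, rfl, rfl⟩ := hs
      · obtain ⟨D, hD⟩ := Pool.Agent.Q239.ABC.trans_three δ hδ
        exact ⟨_, hD.T (abs_nonneg τ) one_pos h'⟩
      · obtain ⟨D, hD⟩ := Pool.Agent.Q239.ABC.trans_four δ hδ
        exact ⟨_, hD.T (abs_nonneg τ) one_pos h'⟩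
      · obtain ⟨D, hD⟩ := Pool.Agent.Q239.ABC.trans_six δ hδ
        exact ⟨_, hD.T (abs_nonneg τ) one_pos h'⟩
    · rintro ⟨τ, C₀, h⟩
      exact ⟨τ, C₀, fun a b c ha hb hab hc _ hC => h a b c ha hb hab hc trivial hC⟩

end Pool.Agent.Results.MP_4ab349_nt.PowersDecideBoundedness
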