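import Pool.Agent.Q34.ABCS.RadCount
import Pool.Agent.Results.MP_2ec8a3_nt.RadicalSet

/-!
# `T(a, b, c)` for the abc-triples with a radical near a sequence

(1) For all `A`, `B` and `ε > 0` the abc-triples with `rad(abc) ≤ X`, `c ≤ X ^ A` and `rad(abc) ≤ B c ^ (7/3)` number
`O(X ^ (4/7 + ε))`, while there are `∼ κ X ^ (2/3)` triples with `rad(abc) ≤ X`.
(2) Let `v ≥ 1` be a sequence with exponent of convergence at most `τ` (for `v_n = n ^ κ` this is `1 / κ`, for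
`v_n = b ^ n` it is `0`) and `0 ≤ θ < 1`. For all `α > 0` outside a set of Hausdorff dimension at most
`(4/7 + τ) / (1 - θ)` and all but finitely many `n`, every abc-triple with `|rad(abc) - α v_n| ≤ v_n ^ θ` and
`c ≤ rad(abc) ^ A` has `T(a, b, c) < - (4/3) √(log c) - K / √(log c)`, that is `rad(abc) > e ^ K c ^ (7/3)`.
(3) For all `δ > 0` there is `ν > 0` such that for all `α > 0` outside a set of dimension at most
`(2/3 - ν + τ) / (1 - θ)` and all but finitely many `n`, for every integer `R` with `|R - α v_n| ≤ v_n ^ θ` there is at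
most one abc-triple, of whatever height, with `rad(abc) = R`, and it has `T(a, b, c) < - (2 - δ) √(log c)`.
-/

set_option autoImplicit false

namespace Pool.Agent.Results.MP_4ab349_nt.RadicalsNearSequences

open Finset

/-- the product of the primes dividing `n` -/
def rad (n : ℕ) : ℕ := ∏ p ∈ n.primeFactors, p

/-- `T(a, b, c) = log (c / rad(abc)) / √(log c)` -/
noncomputable def T (a b c : ℕ) : ℝ :=
  Real.log ((c : ℝ) / (rad (a * b * c) : ℝ)) / Real.sqrt (Real.log c)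

/-- the abc-triples `(a, b, a + b)`, `a ≤ b`, written `(a, b)` -/
def IsTriple (t : ℕ × ℕ) : Prop := 0 < t.1 ∧ t.1 ≤ t.2 ∧ Nat.Coprime t.1 t.2

/-- `rad(abc)` for the triple `(a, b, a + b)` written `(a, b)` -/
def R (t : ℕ × ℕ) : ℕ := rad (t.1 * t.2 * (t.1 + t.2))

/-- the member `c` of the triple -/
def c (t : ℕ × ℕ) : ℝ := ((t.1 + t.2 : ℕ) : ℝ)

/-- the exponent of convergence of the sequence `v` is at most `τ` -/
def ExpLe (v : ℕ → ℝ) (τ : ℝ) : Prop := ∀ t : ℝ, τ < t → Summable (fun n : ℕ => (v n) ^ (-t))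

lemma rad_pos (n : ℕ) : 0 < rad n :=
  Finset.prod_pos fun _ hp => (Nat.prime_of_mem_primeFactors hp).pos

lemma one_lt_c {t : ℕ × ℕ} (ht : IsTriple t) : 1 < c t := by
  have h1 := ht.1
  have h2 := ht.2.1
  have : 1 < t.1 + t.2 := by omega
  unfold c
  exact_mod_cast this

/-- lower bounds for the radical as upper bounds for `T` -/
lemma T_lt {t : ℕ × ℕ} (ht : IsTriple t) {K η : ℝ}
    (h : Real.exp K * c t ^ (1 + η) < (R t : ℝ)) :
    T t.1 t.2 (t.1 + t.2) < - η * Real.sqrt (Real.log (c t)) - K / Real.sqrt (Real.log (c t)) := by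
  have hc := one_lt_c ht
  have hc0 : 0 < c t := by linarith
  have hl : 0 < Real.log (c t) := Real.log_pos hc
  have hs : 0 < Real.sqrt (Real.log (c t)) := Real.sqrt_pos.mpr hl
  have hr : (0 : ℝ) < (R t : ℝ) := by exact_mod_cast rad_pos _
  have h1 := Real.log_lt_log (by positivity) h
  rw [Real.log_mul (Real.exp_pos K).ne' (Real.rpow_pos_of_pos hc0 _).ne', Real.log_exp,
    Real.log_rpow hc0] at h1
  have e1 : T t.1 t.2 (t.1 + t.2) = Real.log (c t / (R t : ℝ)) / Real.sqrt (Real.log (c t)) := rfl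
  rw [e1, Real.log_div hc0.ne' hr.ne', div_lt_iff₀ hs]
  have hss : Real.sqrt (Real.log (c t)) * Real.sqrt (Real.log (c t)) = Real.log (c t) :=
    Real.mul_self_sqrt hl.le
  have h2 : (-η * Real.sqrt (Real.log (c t)) - K / Real.sqrt (Real.log (c t))) *
      Real.sqrt (Real.log (c t)) = -η * Real.log (c t) - K := by
    rw [sub_mul, div_mul_cancel₀ _ hs.ne', mul_assoc, hss]
  rw [h2]
  linarith

/-- **Theorem.** -/
theorem result :
    -- (1) the count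
    (∀ B A ε : ℝ, 0 < ε → ∃ C : ℝ, ∀ X : ℝ, 1 ≤ X →
      {t | IsTriple t ∧ (R t : ℝ) ≤ X ∧ c t ≤ X ^ A ∧ (R t : ℝ) ≤ B * c t ^ (7 / 3 : ℝ)}.Finite ∧
      (({t | IsTriple t ∧ (R t : ℝ) ≤ X ∧ c t ≤ X ^ A ∧
        (R t : ℝ) ≤ B * c t ^ (7 / 3 : ℝ)}.ncard : ℕ) : ℝ) ≤ C * X ^ (4 / 7 + ε)) ∧
    -- (2) the triples with `c ≤ rad(abc) ^ A`
    (∀ (v : ℕ → ℝ) (τ θ A K : ℝ), (∀ n, 1 ≤ v n) → 0 ≤ τ → ExpLe v τ → 0 ≤ θ → θ < 1 →
      ∃ E : Set ℝ, dimH E ≤ ENNReal.ofReal ((4 / 7 + τ) / (1 - θ)) ∧ ∀ α : ℝ, 0 < α → α ∉ E →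
        ∃ n₀ : ℕ, ∀ n : ℕ, n₀ ≤ n → ∀ t, IsTriple t → |(R t : ℝ) - α * v n| ≤ (v n) ^ θ →
          c t ≤ (R t : ℝ) ^ A → T t.1 t.2 (t.1 + t.2) <
            - (4 / 3) * Real.sqrt (Real.log (c t)) - K / Real.sqrt (Real.log (c t))) ∧
    -- (3) the triples of all heights
    (∀ δ : ℝ, 0 < δ → ∃ ν : ℝ, 0 < ν ∧ ∀ (v : ℕ → ℝ) (τ θ : ℝ), (∀ n, 1 ≤ v n) → 0 ≤ τ →
      ExpLe v τ → 0 ≤ θ → θ < 1 →
      ∃ E : Set ℝ, dimH E ≤ ENNReal.ofReal ((2 / 3 - ν + τ) / (1 - θ)) ∧ ∀ α : ℝ, 0 < α →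
        α ∉ E → ∃ n₀ : ℕ, ∀ n : ℕ, n₀ ≤ n → ∀ t, IsTriple t → |(R t : ℝ) - α * v n| ≤ (v n) ^ θ →
          T t.1 t.2 (t.1 + t.2) < - (2 - δ) * Real.sqrt (Real.log (c t)) ∧
          ∀ t', IsTriple t' → R t' = R t → t' = t) ∧
    -- (4) examples of sequences
    (∀ κ : ℝ, 0 < κ → ExpLe (fun n : ℕ => ((n : ℝ) + 1) ^ κ) (1 / κ)) ∧
    (∀ b : ℝ, 1 < b → ExpLe (fun n : ℕ => b ^ n) 0) := by
  refine ⟨fun B A ε hε => ?_, fun v τ θ A K hv hτ hE _ hθ1 => ?_, fun δ hδ => ?_,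
    fun κ hκ => Pool.Agent.Y854.GM.expLe_pow κ hκ, fun b hb => Pool.Agent.Y854.GM.expLe_geom b hb⟩
  · obtain ⟨C, hC⟩ := Q34.ABCS.rad_count B A ε hε
    exact ⟨C, fun X hX => hC X hX _ fun t ht => ⟨ht.1, ht.2.1, ht.2.2.1, ht.2.2.2⟩⟩
  · obtain ⟨E, hE1, hE2⟩ := Q34.ABCS.rad_windows (Real.exp K) A hv hτ hE hθ1
    refine ⟨E, hE1, fun α hα hαE => ?_⟩
    obtain ⟨n₀, hn⟩ := hE2 α hα hαE
    refine ⟨n₀, fun n hn1 t ht hw hA => T_lt ht ?_⟩
    have h1 := hn n hn1 t ht hA hw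
    have e : (1 + 4 / 3 : ℝ) = 7 / 3 := by norm_num
    rw [e]
    exact h1
  · -- the exponent
    obtain ⟨M, hM1, hM2⟩ : ∃ M : ℝ, 1 / 3 < M ∧ 1 / M ≤ 3 ∧ 3 - δ ≤ 1 / M := by
      rcases le_or_gt δ 2 with h | h
      · refine ⟨1 / (3 - δ), one_div_lt_one_div_of_lt (by linarith) (by linarith), ?_, ?_⟩
        · rw [one_div_one_div]; linarith
        · rw [one_div_one_div]
      · exact ⟨1, by norm_num, by norm_num, by linarith⟩
    have hM0 : 0 < M := by linarith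
    obtain ⟨-, -, hreg⟩ := Results.MP_2ec8a3_nt.RadicalSet.result
    obtain ⟨ν, C, hν, hC, h⟩ := hreg M hM1
    refine ⟨min ν (2 / 3), lt_min hν (by norm_num), fun v τ θ hv hτ hE _ hθ1 => ?_⟩
    obtain ⟨E, hE1, hE2⟩ := Pool.Agent.Y854.GM.windows
      {t : ℕ × ℕ | IsTriple t ∧ ¬ Results.MP_2ec8a3_nt.RadicalSet.Regular M (R t)}
      (fun t => (R t : ℝ)) (θ := θ) (s := 2 / 3 - min ν (2 / 3)) hv hτ hE
      (by linarith [min_le_right ν (2 / 3 : ℝ)]) hθ1 (by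
        intro ε hε
        refine ⟨C, fun X hX => ?_⟩
        have hsub : {t | t ∈ {t : ℕ × ℕ | IsTriple t ∧
            ¬ Results.MP_2ec8a3_nt.RadicalSet.Regular M (R t)} ∧ (R t : ℝ) ≤ X} =
            {t | t ∈ Results.MP_2ec8a3_nt.RadicalSet.triples X ∧
              ¬ Results.MP_2ec8a3_nt.RadicalSet.Regular M
                (Results.MP_2ec8a3_nt.RadicalSet.rad3 t)} := by
          ext t
          exact ⟨fun h => ⟨⟨h.1.1, h.2⟩, h.1.2⟩, fun h => ⟨⟨h.1.1, h.2⟩, h.1.2⟩⟩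
        rw [hsub]
        obtain ⟨hfin, -⟩ := Results.MP_2ec8a3_nt.RadicalSet.result.1 X
        refine ⟨hfin.subset fun t ht => ht.1, (h X hX).2.trans ?_⟩
        refine mul_le_mul_of_nonneg_left (Real.rpow_le_rpow_of_exponent_le hX ?_) hC.le
        linarith [min_le_left ν (2 / 3 : ℝ)])
    refine ⟨E, hE1, fun α hα hαE => ?_⟩
    obtain ⟨n₀, hn⟩ := hE2 α hα hαE
    refine ⟨n₀, fun n hn1 t ht hw => ?_⟩
    have hregt : Results.MP_2ec8a3_nt.RadicalSet.Regular M (R t) := by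
      by_contra hcon
      exact absurd (hn n hn1 t ⟨ht, hcon⟩) (not_lt.2 hw)
    obtain ⟨t₀, ht₀, hr₀, huniq, hlt⟩ := hregt
    have htt : t = t₀ := huniq t ht rfl
    subst htt
    refine ⟨?_, fun t' ht' hR' => huniq t' ht' hR'⟩
    have hlt' : c t < (R t : ℝ) ^ M := hlt
    have hc := one_lt_c ht
    have hc0 : 0 < c t := by linarith
    have hr : (1 : ℝ) ≤ (R t : ℝ) := by exact_mod_cast rad_pos _
    have h1 : c t ^ (3 - δ) < (R t : ℝ) := by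
      calc c t ^ (3 - δ) ≤ c t ^ (1 / M) := Real.rpow_le_rpow_of_exponent_le hc.le hM2.2
        _ < ((R t : ℝ) ^ M) ^ (1 / M) := Real.rpow_lt_rpow hc0.le hlt' (by positivity)
        _ = (R t : ℝ) := by
          rw [← Real.rpow_mul (by linarith), mul_one_div_cancel hM0.ne', Real.rpow_one]
    have h2 := T_lt ht (K := 0) (η := 2 - δ) (by
      rw [Real.exp_zero, one_mul, show 1 + (2 - δ) = 3 - δ by ring]
      exact h1)
    rw [zero_div, sub_zero] at h2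
    exact h2

end Pool.Agent.Results.MP_4ab349_nt.RadicalsNearSequences
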