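import Pool.Agent.Y854.AB.Count
import Pool.Agent.Q21.DW.Cnt

/-!
# `T(a, b, c)` is very negative for ALL the abc-triples with a member written by digits of a random real number

Let `A ≥ 1`, `0 ≤ η < 7 / 9` and `A f(η) < 1`, `f(0) = 15 / 28`.  For almost every real number `α`, all bases `g`,
all `κ < 1 - A f(η)`, all `K` and all large `k`, for ALL numbers `m` written by `k` consecutive digits of `α` in
base `g` beginning after a position `j ≤ g ^ (κ k)`: EVERY abc-triple with a member `m` and `c ≤ m ^ A` (every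
abc-triple with `c = m`, if `A = 1`) has `T(a, b, c) < - η √(log c) - K / √(log c)`, that is
`rad(abc) > e ^ K c ^ (1 + η)`.  For `j ≤ δ k` the exceptional `α` form a set of Hausdorff dimension at most
`(A f(η) + δ) / (1 + δ)`; and for windows around dilates there is a convergence criterion for `s`-dimensional
Hausdorff measure.
-/

set_option autoImplicit false

namespace Pool.Agent.Results.MP_4ab349_nt.RandomReals

open Finset MeasureTheory Filter

/-- the product of the primes dividing `n` -/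
def rad (n : ℕ) : ℕ := ∏ p ∈ n.primeFactors, p

/-- `T(a, b, c) = log (c / rad(abc)) / √(log c)` -/
noncomputable def T (a b c : ℕ) : ℝ :=
  Real.log ((c : ℝ) / (rad (a * b * c) : ℝ)) / Real.sqrt (Real.log c)

/-- increasing from `15 / 28` for `η = 0` to `1` for `η = 7 / 9`: equal to `5 (10 η + 9) / 84` for `η ≤ 1 / 2` and to
`(9 η + 8) / 15` for `η > 1 / 2` -/
noncomputable def f (η : ℝ) : ℝ := if η ≤ 1 / 2 then 5 * (10 * η + 9) / 84 else (9 * η + 8) / 15

/-- every abc-triple `(a, b, a + b)` with `a + b ≤ m ^ A` one of whose members is `m` satisfies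
`T(a, b, c) < - η √(log c) - K / √(log c)`, `c = a + b`; that is, `rad(abc) > e ^ K c ^ (1 + η)` -/
def Good (A η K : ℝ) (m : ℕ) : Prop :=
  ∀ a b : ℕ, 0 < a → 0 < b → Nat.Coprime a b → (a = m ∨ b = m ∨ a + b = m) →
    ((a + b : ℕ) : ℝ) ≤ (m : ℝ) ^ A →
      T a b (a + b) < - η * Real.sqrt (Real.log ((a + b : ℕ) : ℝ)) - K / Real.sqrt (Real.log ((a + b : ℕ) : ℝ))

/-- the number written by the `k` digits number `j + 1, …, j + k` after the point of `α` in base `g` -/
noncomputable def window (g j k : ℕ) (α : ℝ) : ℕ := (⌊(g : ℝ) ^ (j + k) * α⌋ % (g : ℤ) ^ k).toNat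

/-- The properties `G i` of natural numbers hold
(`digits`) for almost every real `α`, all `i`, all bases `g`, all `κ < 1 - θ` and all large `k`, for ALL
numbers `window g j k α`, `j ≤ g ^ (κ k)`;
(`dim`) for all `α` outside a set of Hausdorff dimension at most `(θ + δ) / (1 + δ)`, if `j ≤ δ k`;
(`dilates`) for all `α > 0` outside a set of `s`-dimensional Hausdorff measure zero, for all `i` and all
large `k`, at ALL natural numbers `m` with `|m - α v k| ≤ w k`, if `v k ≥ 1`, `w k ≥ 0` and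
`∑ v k ^ t (w k / v k) ^ s` converges for some `t > θ`. -/
structure RandomReals {ι : Type} (θ : ℝ) (G : ι → ℕ → Prop) : Prop where
  digits : ∀ᵐ α : ℝ, ∀ i, ∀ g : ℕ, 2 ≤ g → ∀ κ : ℝ, κ < 1 - θ → ∀ᶠ k : ℕ in atTop, ∀ j : ℕ,
    (j : ℝ) ≤ (g : ℝ) ^ (κ * k) → G i (window g j k α)
  dim : ∀ δ : ℝ, 0 ≤ δ → dimH {α : ℝ | ¬ ∀ i, ∀ g : ℕ, 2 ≤ g → ∀ᶠ k : ℕ in atTop, ∀ j : ℕ,
    (j : ℝ) ≤ δ * k → G i (window g j k α)} ≤ ENNReal.ofReal ((θ + δ) / (1 + δ))
  dilates : ∀ (t s : ℝ) (v w : ℕ → ℝ), θ < t → 0 < s → (∀ k, 1 ≤ v k) → (∀ k, 0 ≤ w k) →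
    Summable (fun k => v k ^ t * (w k / v k) ^ s) →
    μH[s] {α : ℝ | 0 < α ∧ ¬ ∀ i, ∀ᶠ k : ℕ in atTop, ∀ m : ℕ, |(m : ℝ) - α * v k| ≤ w k →
      G i m} = 0

theorem of_engine {ι : Type} {θ : ℝ} {G : ι → ℕ → Prop} (h : Pool.Agent.Q21.DW.RandomReals θ G) :
    RandomReals θ G where
  digits := h.digits
  dim := h.dim
  dilates := h.dilates

lemma Fx_eq (η : ℝ) (h0 : 0 ≤ η) (h1 : η < 7 / 9) : Pool.Agent.W221.ABC7.Fx (1 + η) = f η := by
  unfold Pool.Agent.W221.ABC7.Fx f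
  rcases h0.eq_or_lt with h | h
  · subst h
    norm_num
  · rw [if_neg (show ¬ (1 + η ≤ 2 / 3) by linarith), if_neg (show ¬ (1 + η ≤ 1) by linarith)]
    by_cases h2 : η ≤ 1 / 2
    · rw [if_pos (show 1 + η ≤ 3 / 2 by linarith), if_pos h2]
      ring
    · rw [if_neg (show ¬ (1 + η ≤ 3 / 2) by linarith), if_pos (show 1 + η ≤ 16 / 9 by linarith), if_neg h2]
      ring

lemma rad_pos (n : ℕ) : 0 < rad n :=
  Finset.prod_pos fun _ hp => (Nat.prime_of_mem_primeFactors hp).pos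

lemma good_of (A η K : ℝ) (m : ℕ) (h : m ∉ Pool.Agent.Y854.AB.Bad (Real.exp K) (1 + η) A) : Good A η K m := by
  intro a b ha hb hab hmem hht
  have hc2 : 2 ≤ a + b := by omega
  have hc : (1 : ℝ) < ((a + b : ℕ) : ℝ) := by exact_mod_cast (by omega : 1 < a + b)
  have hc0 : (0 : ℝ) < ((a + b : ℕ) : ℝ) := by linarith
  have hl : 0 < Real.log ((a + b : ℕ) : ℝ) := Real.log_pos hc
  have hs : 0 < Real.sqrt (Real.log ((a + b : ℕ) : ℝ)) := Real.sqrt_pos.mpr hl
  have hr : (0 : ℝ) < (rad (a * b * (a + b)) : ℝ) := by exact_mod_cast rad_pos _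
  have hbig : Real.exp K * ((a + b : ℕ) : ℝ) ^ (1 + η) < (rad (a * b * (a + b)) : ℝ) := by
    by_contra hcon
    push Not at hcon
    exact h ⟨a, b, ha, hb, hab, hmem, hht, hcon⟩
  have h1 := Real.log_lt_log (by positivity) hbig
  rw [Real.log_mul (Real.exp_pos K).ne' (Real.rpow_pos_of_pos hc0 _).ne', Real.log_exp,
    Real.log_rpow hc0] at h1
  unfold T
  rw [Real.log_div hc0.ne' hr.ne', div_lt_iff₀ hs]
  have hss : Real.sqrt (Real.log ((a + b : ℕ) : ℝ)) * Real.sqrt (Real.log ((a + b : ℕ) : ℝ)) =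
      Real.log ((a + b : ℕ) : ℝ) := Real.mul_self_sqrt hl.le
  have h2 : (-η * Real.sqrt (Real.log ((a + b : ℕ) : ℝ)) - K / Real.sqrt (Real.log ((a + b : ℕ) : ℝ))) *
      Real.sqrt (Real.log ((a + b : ℕ) : ℝ)) = -η * Real.log ((a + b : ℕ) : ℝ) - K := by
    rw [sub_mul, div_mul_cancel₀ _ hs.ne', mul_assoc, hss]
  rw [h2]
  linarith

lemma f_pos {η : ℝ} (h : 0 ≤ η) : 0 < f η := by
  unfold f
  split_ifs <;> positivity

/-- Let `A ≥ 1`, `0 ≤ η < 7 / 9` and `A f(η) < 1`. Every random natural number `m` in the sense of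
`RandomReals (A f(η))` is `Good A η K` for every `K`: every abc-triple with a member `m` and `c ≤ m ^ A` satisfies
`T(a, b, c) < - η √(log c) - K / √(log c)`. -/
theorem result (A η : ℝ) (hA : 1 ≤ A) (hη : 0 ≤ η) (hη1 : η < 7 / 9) (hAf : A * f η < 1) :
    RandomReals (A * f η) (fun (K : ℕ) (m : ℕ) => Good A η K m) := by
  classical
  refine of_engine (Pool.Agent.Q21.DW.randomReals_of
    (B := fun (K : ℕ) (m : ℕ) => m ∈ Pool.Agent.Y854.AB.Bad (Real.exp K) (1 + η) A)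
    (mul_nonneg (by linarith) (f_pos hη).le) hAf (fun K => ?_) (fun K m _ hn => good_of A η K m hn))
  intro t ht
  obtain ⟨C, hC⟩ := Pool.Agent.Y854.AB.count (Real.exp K) (1 + η) A (by linarith) (by linarith) (t - A * f η)
    (by linarith)
  refine ⟨C, fun N hN => ?_⟩
  have h1 := hC N hN
  rw [Fx_eq η hη hη1, show A * f η + (t - A * f η) = t by ring] at h1
  refine le_trans (Nat.cast_le.2 (Finset.card_le_card ?_)) h1
  intro m hm
  rw [mem_filter, mem_Icc] at hm
  rw [mem_filter, mem_Ioc]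
  exact ⟨⟨by omega, hm.1.2⟩, hm.2⟩

end Pool.Agent.Results.MP_4ab349_nt.RandomReals
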